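import Pool.Agent.Helper79.AA.Defs
import Pool.Agent.Helper79.GC.Defs3

/-!
# UI, leaf U2: growth for the letters (helper54)
-/

open Polynomial

namespace Pool.Agent.Helper79.UI

open Pool.Agent.Helper79.GC Pool.Agent.Helper79.GX Pool.Agent.Helper79.AA

section

set_option linter.unusedSectionVars false

variable {ι : Type} [Fintype ι] [DecidableEq ι]

/-! ### letters -/

private theorem u2_lett_none_left {S : Type} [Zero S] (A : Matrix ι ι S)
    (q : Option (ι × ι)) : lett A none q = 0 := by
  rcases q with _ | q <;> rfl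

private theorem u2_lett_none_right {S : Type} [Zero S] (A : Matrix ι ι S)
    (p : Option (ι × ι)) : lett A p none = 0 := by
  rcases p with _ | p <;> rfl

private theorem u2_lett_some {S : Type} [Zero S] (A : Matrix ι ι S) (i k j l : ι) :
    lett A (some (i, k)) (some (j, l)) = if k = l then A i j else 0 := rfl

private theorem u2_lett_cases {S : Type} [Zero S] (A : Matrix ι ι S) (p q : Option (ι × ι)) :
    lett A p q = 0 ∨ ∃ i j, lett A p q = A i j := by
  rcases p with _ | ⟨i, k⟩
  · exact Or.inl (u2_lett_none_left A q)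
  · rcases q with _ | ⟨j, l⟩
    · exact Or.inl (u2_lett_none_right A _)
    · rw [u2_lett_some]
      by_cases h : k = l
      · exact Or.inr ⟨i, j, by rw [if_pos h]⟩
      · exact Or.inl (by rw [if_neg h])

private theorem u2_lett_map {S S' : Type} [Zero S] [Zero S'] (f : S → S') (hf : f 0 = 0)
    (A : Matrix ι ι S) : (lett A).map f = lett (A.map f) := by
  ext1 p q
  rw [Matrix.map_apply]
  rcases p with _ | ⟨i, k⟩
  · rw [u2_lett_none_left, u2_lett_none_left, hf]
  · rcases q with _ | ⟨j, l⟩
    · rw [u2_lett_none_right, u2_lett_none_right, hf]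
    · rw [u2_lett_some, u2_lett_some]
      by_cases h : k = l
      · rw [if_pos h, if_pos h, Matrix.map_apply]
      · rw [if_neg h, if_neg h, hf]

section Ring

variable {S : Type} [CommRing S]

private theorem u2_lett_add (A B : Matrix ι ι S) : lett (A + B) = lett A + lett B := by
  ext1 p q
  rw [Matrix.add_apply]
  rcases p with _ | ⟨i, k⟩
  · rw [u2_lett_none_left, u2_lett_none_left, u2_lett_none_left, add_zero]
  · rcases q with _ | ⟨j, l⟩
    · rw [u2_lett_none_right, u2_lett_none_right, u2_lett_none_right, add_zero]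
    · rw [u2_lett_some, u2_lett_some, u2_lett_some]
      by_cases h : k = l
      · rw [if_pos h, if_pos h, if_pos h, Matrix.add_apply]
      · rw [if_neg h, if_neg h, if_neg h, add_zero]

private theorem u2_lett_sub (A B : Matrix ι ι S) : lett (A - B) = lett A - lett B := by
  ext1 p q
  rw [Matrix.sub_apply]
  rcases p with _ | ⟨i, k⟩
  · rw [u2_lett_none_left, u2_lett_none_left, u2_lett_none_left, sub_zero]
  · rcases q with _ | ⟨j, l⟩
    · rw [u2_lett_none_right, u2_lett_none_right, u2_lett_none_right, sub_zero]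
    · rw [u2_lett_some, u2_lett_some, u2_lett_some]
      by_cases h : k = l
      · rw [if_pos h, if_pos h, if_pos h, Matrix.sub_apply]
      · rw [if_neg h, if_neg h, if_neg h, sub_zero]

private theorem u2_lett_smul (c : S) (A : Matrix ι ι S) : lett (c • A) = c • lett A := by
  ext1 p q
  rw [Matrix.smul_apply]
  rcases p with _ | ⟨i, k⟩
  · rw [u2_lett_none_left, u2_lett_none_left, smul_zero]
  · rcases q with _ | ⟨j, l⟩
    · rw [u2_lett_none_right, u2_lett_none_right, smul_zero]
    · rw [u2_lett_some, u2_lett_some]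
      by_cases h : k = l
      · rw [if_pos h, if_pos h, Matrix.smul_apply]
      · rw [if_neg h, if_neg h, smul_zero]

private theorem u2_lett_neg (A : Matrix ι ι S) : lett (-A) = -lett A := by
  have h := u2_lett_smul (-1 : S) A
  rwa [neg_one_smul, neg_one_smul] at h

private theorem u2_sum_option (f : Option (ι × ι) → S) :
    ∑ q, f q = f none + ∑ i, ∑ k, f (some (i, k)) := by
  rw [Fintype.sum_option, Fintype.sum_prod_type]

private theorem u2_lett_mul (A B : Matrix ι ι S) : lett A * lett B = lett (A * B) := by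
  ext1 p q
  rw [Matrix.mul_apply, u2_sum_option, u2_lett_none_right, zero_mul, zero_add]
  rcases p with _ | ⟨i, k⟩
  · rw [u2_lett_none_left]
    refine Finset.sum_eq_zero fun j _ => Finset.sum_eq_zero fun l _ => ?_
    rw [u2_lett_none_left, zero_mul]
  · rcases q with _ | ⟨j, l⟩
    · rw [u2_lett_none_right]
      refine Finset.sum_eq_zero fun j _ => Finset.sum_eq_zero fun l _ => ?_
      rw [u2_lett_none_right B, mul_zero]
    · rw [u2_lett_some]
      simp only [u2_lett_some]
      by_cases h : k = l
      · subst h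
        rw [if_pos rfl, Matrix.mul_apply]
        refine Finset.sum_congr rfl fun m _ => ?_
        rw [Finset.sum_eq_single k]
        · rw [if_pos rfl, if_pos rfl]
        · intro b _ hb
          rw [if_neg (Ne.symm hb), zero_mul]
        · intro h
          exact absurd (Finset.mem_univ k) h
      · rw [if_neg h]
        refine Finset.sum_eq_zero fun m _ => Finset.sum_eq_zero fun b _ => ?_
        by_cases h1 : k = b
        · subst h1
          rw [if_neg h, mul_zero]
        · rw [if_neg h1, zero_mul]

end Ring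

private theorem u2_beta_one {κ : Type} [Fintype κ] [DecidableEq κ] (T : ℚ[X])
    (B : Matrix κ κ ℚ[X]) : betaF T B 1 = B := by
  rw [betaF, betaF]
  have h : (1 : Matrix κ κ ℚ[X]).map derivative = 0 := by
    ext1 a b
    by_cases h : a = b
    · subst h
      simp
    · simp [h]
  rw [h, smul_zero, one_mul]
  simp

private theorem u2_beta_lett (T : ℚ[X]) (A : Matrix ι ι ℚ[X]) (j : ℕ) :
    betaF T (lett A) (j + 1) = lett (betaF T A (j + 1)) := by
  induction j with
  | zero => rw [zero_add, u2_beta_one, u2_beta_one]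
  | succ j ih =>
    rw [betaF, ih, betaF.eq_2 T A (j + 1), u2_lett_map _ (map_zero _), u2_lett_mul, ← u2_lett_smul,
      ← u2_lett_smul, ← u2_lett_sub, ← u2_lett_add, ← u2_lett_smul]

end

/-- U2: growth for the letters. -/
theorem gr_lett {ι : Type} [Fintype ι] [DecidableEq ι] {T : ℚ[X]} {A : Matrix ι ι ℚ[X]} {x : ℚ}
    {Q : ℝ} (hQ : 1 ≤ Q) (h : Gr T A x Q) : Gr T (lett A) x Q := by
  obtain ⟨C, hC⟩ := h
  have hQ0 : (0 : ℝ) ≤ Q := zero_le_one.trans hQ
  refine ⟨max C 1, fun J => ?_⟩
  obtain ⟨q, hq, hqC, hall⟩ := hC J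
  refine ⟨q, hq, hqC.trans (mul_le_mul_of_nonneg_right (le_max_left C 1) (pow_nonneg hQ0 J)),
    fun j hj a b => ?_⟩
  rcases j with _ | j
  · have h0 : gm T (lett A) 0 x a b = if a = b then 1 else 0 := by
      unfold gm
      rw [Matrix.of_apply, betaF, pow_zero, div_one, Matrix.one_apply]
      split_ifs <;> simp
    rw [h0]
    split_ifs
    · exact ⟨⟨(q : ℤ), by push_cast; ring⟩, by simp⟩
    · exact ⟨⟨0, by simp⟩, by simp⟩
  · have hz : (∃ n : ℤ, (q : ℚ) * 0 = n) ∧ |((0 : ℚ) : ℝ)| ≤ max C 1 * Q ^ (j + 1) := by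
      refine ⟨⟨0, by simp⟩, ?_⟩
      rw [Rat.cast_zero, abs_zero]
      exact mul_nonneg (zero_le_one.trans (le_max_right C 1)) (pow_nonneg hQ0 _)
    have h1 : gm T (lett A) (j + 1) x a b = 0 ∨
        ∃ i k, gm T (lett A) (j + 1) x a b = gm T A (j + 1) x i k := by
      unfold gm
      rw [Matrix.of_apply, u2_beta_lett]
      rcases u2_lett_cases (betaF T A (j + 1)) a b with h2 | ⟨i, k, h2⟩
      · left
        rw [h2, eval_zero, zero_div]
      · right
        exact ⟨i, k, by rw [h2, Matrix.of_apply]⟩
    rcases h1 with h1 | ⟨i, k, h1⟩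
    · rw [h1]
      exact hz
    · rw [h1]
      obtain ⟨h3, h4⟩ := hall (j + 1) hj i k
      exact ⟨h3, h4.trans (mul_le_mul_of_nonneg_right (le_max_left C 1) (pow_nonneg hQ0 _))⟩

end Pool.Agent.Helper79.UI
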