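import Pool.Agent.Helper79.GC.Defs3
import Pool.Agent.Helper79.DD.Sym

/-!
# UI, leaf U5: bad integers of the symmetric words (helper54)
-/

open Polynomial

namespace Pool.Agent.Helper79.UI

open Pool.Agent.Helper79.GC Pool.Agent.Helper79.DD

section

variable {W W' : Type} [Fintype W] [DecidableEq W]
  [Fintype W'] [DecidableEq W'] {π : W → W'} {σ : W' → W} (hσ : ∀ s, π (σ s) = s)
  {z : ℝ → W → ℂ} (hz : ∀ t, ∀ I, z t I = z t (σ (π I)))

include hσ hz

theorem bad_quot {n : ℕ} (h : Bad z n) : Bad (fun t s => z t (σ s)) n := by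
  obtain ⟨l, hl, hno⟩ := h
  set l' : W' → ℚ := fun s => ∑ I, if π I = s then l I else 0 with hl'
  have hsum : ∀ t : ℝ, ∑ s, ((l' s : ℚ) : ℂ) * z t (σ s) = ∑ I, ((l I : ℚ) : ℂ) * z t I := by
    intro t
    have e1 : ∀ s, ((l' s : ℚ) : ℂ) * z t (σ s) =
        ∑ I, if π I = s then ((l I : ℚ) : ℂ) * z t (σ s) else 0 := by
      intro s
      rw [hl']
      simp only
      rw [Rat.cast_sum, Finset.sum_mul]
      refine Finset.sum_congr rfl fun I _ => ?_
      split_ifs
      · rfl
      · rw [Rat.cast_zero, zero_mul]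
    rw [Finset.sum_congr rfl fun s _ => e1 s, Finset.sum_comm]
    refine Finset.sum_congr rfl fun I _ => ?_
    rw [Finset.sum_ite_eq Finset.univ (π I), if_pos (Finset.mem_univ _), ← hz t I]
  refine ⟨l', by rw [hsum, hl], ?_⟩
  rintro ⟨h', h1, h2⟩
  apply hno
  refine ⟨fun I => C (l I) + if I = σ (π I) then h' (π I) - C (l' (π I)) else 0, fun I => ?_, ?_⟩
  · rw [eval_add, eval_C]
    split_ifs
    · rw [eval_sub, h1, eval_C, sub_self, add_zero]
    · rw [eval_zero, add_zero]
  · filter_upwards [h2] with t ht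
    have hC : ∀ q : ℚ, aeval (t : ℂ) (C q : ℚ[X]) = (q : ℂ) := by
      intro q
      rw [aeval_C]
      rfl
    have e2 : ∀ I, aeval (t : ℂ) (C (l I) + if I = σ (π I) then h' (π I) - C (l' (π I)) else 0) *
        z t I = ((l I : ℚ) : ℂ) * z t I +
          ∑ s, if I = σ s then aeval (t : ℂ) (h' s - C (l' s)) * z t (σ s) else 0 := by
      intro I
      rw [map_add, add_mul, hC]
      congr 1
      by_cases hI : I = σ (π I)
      · rw [if_pos hI, Finset.sum_eq_single (π I), if_pos hI, ← hI]
        · intro s _ hs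
          rw [if_neg]
          intro h3
          apply hs
          rw [h3, hσ]
        · intro h3
          exact absurd (Finset.mem_univ _) h3
      · rw [if_neg hI, map_zero, zero_mul]
        symm
        refine Finset.sum_eq_zero fun s _ => ?_
        rw [if_neg]
        intro h3
        apply hI
        rw [h3, hσ]
    rw [Finset.sum_congr rfl fun I _ => e2 I, Finset.sum_add_distrib, ← hsum t,
      Finset.sum_comm]
    have e3 : ∀ s, ∑ I, (if I = σ s then aeval (t : ℂ) (h' s - C (l' s)) * z t (σ s) else 0) =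
        aeval (t : ℂ) (h' s) * z t (σ s) - ((l' s : ℚ) : ℂ) * z t (σ s) := by
      intro s
      rw [Finset.sum_ite_eq' Finset.univ (σ s), if_pos (Finset.mem_univ _), map_sub, sub_mul, hC]
    rw [Finset.sum_congr rfl fun s _ => e3 s, Finset.sum_sub_distrib, ht]
    ring

end

/-- U5: bad integers of the symmetric words. -/
theorem bad_sym {ι : Type} [Fintype ι] [DecidableEq ι] {r : ℕ} {P : ℂ → Matrix ι ι ℂ} {n : ℕ}
    (h : Bad (wz r P) n) :
    Bad (fun (t : ℝ) (s : Wt (Option (ι × ι)) r) => wz r P t (rep s)) n := by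
  refine bad_quot (W' := Wt (Option (ι × ι)) r) (π := cls) (σ := rep) cls_rep ?_ h
  intro t I
  obtain ⟨τ, hτ⟩ := exists_perm (cls_rep (cls I))
  unfold wz
  have h1 : I = rep (cls I) ∘ τ := hτ
  conv_lhs => rw [h1]
  exact Equiv.prod_comp τ (fun j => ltr (P (t : ℂ)) (rep (cls I) j))

end Pool.Agent.Helper79.UI
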