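import Pool.Agent.Helper79.CU.TensOde
import Pool.Agent.Helper79.DD.Sym
import Pool.Agent.Helper79.GC.Defs3

/-!
# UI, leaf U6: the system of the symmetric words (helper54)
-/

open Polynomial

namespace Pool.Agent.Helper79.UI

open Pool.Agent.Helper79.GC Pool.Agent.Helper79.DD Pool.Agent.Helper79.CU

section

variable {ι : Type} [Fintype ι] [DecidableEq ι]

private theorem u6_letter (L : Matrix ι ι ℂ) (M : Matrix ι ι ℂ) (i k : ι) :
    ∑ q, lett L (some (i, k)) q * ltr M q = ∑ j, L i j * M j k := by
  rw [Fintype.sum_option, Fintype.sum_prod_type]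
  have h0 : lett L (some (i, k)) none = 0 := rfl
  rw [h0, zero_mul, zero_add]
  refine Finset.sum_congr rfl fun j _ => ?_
  rw [Finset.sum_eq_single k]
  · have h1 : lett L (some (i, k)) (some (j, k)) = if k = k then L i j else 0 := rfl
    rw [h1, if_pos rfl]
    rfl
  · intro l _ hl
    have h1 : lett L (some (i, k)) (some (j, l)) = if k = l then L i j else 0 := rfl
    rw [h1, if_neg (Ne.symm hl), zero_mul]
  · intro h
    exact absurd (Finset.mem_univ k) h

private theorem u6_none (L : Matrix ι ι ℂ) (M : Matrix ι ι ℂ) :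
    ∑ q, lett L none q * ltr M q = 0 := by
  refine Finset.sum_eq_zero fun q _ => ?_
  have h1 : lett L none q = 0 := by
    rcases q with _ | q <;> rfl
  rw [h1, zero_mul]

private theorem u6_map (t : ℂ) (A : Matrix ι ι ℚ[X]) :
    (lett A).map (fun p => aeval t p) = lett (A.map fun p => aeval t p) := by
  ext1 p q
  rw [Matrix.map_apply]
  rcases p with _ | ⟨i, k⟩
  · have h1 : lett A none q = 0 := by
      rcases q with _ | q <;> rfl
    have h2 : lett (A.map fun p => aeval t p) none q = 0 := by
      rcases q with _ | q <;> rfl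
    rw [h1, h2, map_zero]
  · rcases q with _ | ⟨j, l⟩
    · have h1 : lett A (some (i, k)) none = 0 := rfl
      have h2 : lett (A.map fun p => aeval t p) (some (i, k)) none = 0 := rfl
      rw [h1, h2, map_zero]
    · have h1 : lett A (some (i, k)) (some (j, l)) = if k = l then A i j else 0 := rfl
      have h2 : lett (A.map fun p => aeval t p) (some (i, k)) (some (j, l)) =
          if k = l then (A.map fun p => aeval t p) i j else 0 := rfl
      rw [h1, h2]
      split_ifs
      · rfl
      · exact map_zero _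

end

/-- U6: the system of the symmetric words. -/
theorem sym_ode {ι : Type} [Fintype ι] [DecidableEq ι] {T : ℚ[X]} {A : Matrix ι ι ℚ[X]} {U : Set ℂ}
    (hU : IsOpen U) {P : ℂ → Matrix ι ι ℂ} (hP : ∀ i k, AnalyticOnNhd ℂ (fun t => P t i k) U)
    (hode : ∀ t ∈ U, ∀ i k, aeval t T * deriv (fun t => P t i k) t =
      ∑ j, aeval t (A i j) * P t j k) (r : ℕ) :
    (∀ s : Wt (Option (ι × ι)) r,
      AnalyticOnNhd ℂ (fun t => ∏ j, ltr (P t) (rep s j)) U) ∧
    ∀ t ∈ U, ∀ s : Wt (Option (ι × ι)) r,
      aeval t T * deriv (fun t => ∏ j, ltr (P t) (rep s j)) t =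
        ∑ s', aeval t (qM cls rep (tens r (lett A)) s s') * ∏ j, ltr (P t) (rep s' j) := by
  classical
  have hl : ∀ p : Option (ι × ι), AnalyticOnNhd ℂ (fun t => ltr (P t) p) U := by
    intro p
    rcases p with _ | p
    · exact analyticOnNhd_const
    · exact hP p.1 p.2
  refine ⟨fun s => Finset.analyticOnNhd_fun_prod _ fun j _ => hl _, fun t ht s => ?_⟩
  set V : ℂ → Matrix (Option (ι × ι)) Unit ℂ := fun t => Matrix.of fun p _ => ltr (P t) p with hV
  have hd : ∀ (p : Option (ι × ι)) (k : Unit), DifferentiableAt ℂ (fun t => V t p k) t := by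
    intro p k
    exact ((hl p) t ht).differentiableAt
  have h1 : ∀ (p : Option (ι × ι)) (k : Unit), aeval t T * deriv (fun t => V t p k) t =
      ∑ l, ((lett A).map fun p => aeval t p) p l * V t l k := by
    intro p k
    rw [u6_map]
    change aeval t T * deriv (fun t => ltr (P t) p) t =
      ∑ l, lett (A.map fun p => aeval t p) p l * ltr (P t) l
    rcases p with _ | ⟨i, j⟩
    · rw [u6_none]
      have h2 : deriv (fun t : ℂ => ltr (P t) none) t = 0 := by
        change deriv (fun _ : ℂ => (1 : ℂ)) t = 0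
        exact deriv_const t 1
      rw [h2, mul_zero]
    · rw [u6_letter]
      change aeval t T * deriv (fun t => P t i j) t = _
      rw [hode t ht i j]
      rfl
  have h3 := (tens_ode hd h1 r (rep s) (fun _ => ())).2
  change aeval t T * deriv (fun t => ∏ j, ltr (P t) (rep s j)) t =
    ∑ K, tens r ((lett A).map fun p => aeval t p) (rep s) K * ∏ j, ltr (P t) (K j) at h3
  rw [h3]
  have h4 : ∀ K, tens r ((lett A).map fun p => aeval t p) (rep s) K =
      aeval t (tens r (lett A) (rep s) K) := by
    intro K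
    have h5 := congrFun (congrFun (tens_map ((aeval t : ℚ[X] →ₐ[ℚ] ℂ).toRingHom) r (lett A)) (rep s)) K
    exact h5.symm
  have hz : ∀ I : Fin r → Option (ι × ι),
      ∏ j, ltr (P t) (I j) = ∏ j, ltr (P t) (rep (cls I) j) := by
    intro I
    obtain ⟨τ, hτ⟩ := exists_perm (cls_rep (cls I))
    have h1 : I = rep (cls I) ∘ τ := hτ
    conv_lhs => rw [h1]
    exact Equiv.prod_comp τ (fun j => ltr (P t) (rep (cls I) j))
  have e1 : ∀ c', aeval t (qM cls rep (tens r (lett A)) s c') * ∏ j, ltr (P t) (rep c' j) =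
      ∑ J, if cls J = c' then aeval t (tens r (lett A) (rep s) J) * ∏ j, ltr (P t) (rep c' j)
        else 0 := by
    intro c'
    unfold qM
    rw [map_sum, Finset.sum_mul]
    refine Finset.sum_congr rfl fun J _ => ?_
    split_ifs
    · rfl
    · rw [map_zero, zero_mul]
  rw [Finset.sum_congr rfl fun c' _ => e1 c', Finset.sum_comm]
  refine Finset.sum_congr rfl fun J _ => ?_
  rw [Finset.sum_ite_eq Finset.univ (cls J), if_pos (Finset.mem_univ _), ← hz J, h4]

end Pool.Agent.Helper79.UI
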